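import Pool.Graph.R_pool_sql_team_39128cda.H.MP_89edc2_al.D

/-!
# MP_89edc2_al: a finitely presented simple group of non-uniform exponential growth

The group `V` generated by the permutations of `ℤ` that interchange two disjoint residue classes modulo powers
of 2 is finitely presented, infinite and simple, has a generating set whose balls have at least `2 ^ k` elements,
and for every `c > 1` it is generated by at most `16390` involutions whose balls of radius `k` have fewer than
`c ^ k` elements for all large `k`.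
-/

set_option autoImplicit false

open Equiv Pool.Agent.H.MP_02e21a_al Pool.Agent.H.MP_89edc2_al
open scoped Pointwise

namespace Pool.Agent.Results.MP_89edc2_al.SimpleGroup

/-- The ball of radius `k` of the group `G` for the set `S`: the products of at most `k` elements of `S ∪ S⁻¹`. -/
def WordBall {G : Type} [Group G] (S : Finset G) (k : ℕ) : Set G :=
  {g : G | ∃ l : List G, l.length ≤ k ∧ (∀ x ∈ l, x ∈ S ∨ x⁻¹ ∈ S) ∧ l.prod = g}

/-! ### Simplicity -/

/-- the elements of `V` are products of transpositions of cones -/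
lemma v_wd {x : Perm ℤ} (hx : x ∈ V) : Wd tau Set.univ x := by
  let W : Subgroup (Perm ℤ) :=
    { carrier := {x | Wd tau Set.univ x}
      one_mem' := Wd.one
      mul_mem' := fun h h' => Wd.mul' h h'
      inv_mem' := fun h => Wd.inv MM h }
  have : V ≤ W := short_gen W fun a b d => Wd.single (Set.mem_univ _) (Set.mem_univ _) d
  exact this hx

/-- elements of `V` map deep cones to cones -/
lemma deep {x : Perm ℤ} (hx : x ∈ V) : ∃ n : ℕ, ∀ v : Ad, n ≤ v.length → ∃ v', Mp x v v' := by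
  have h := v_wd hx
  induction h with
  | one => exact ⟨0, fun v _ => ⟨v, Mp.one v⟩⟩
  | mul a b x _ _ d hw ih =>
    obtain ⟨n, hn⟩ := ih (wd_mem hw)
    refine ⟨n + max a.length b.length, fun v hv => ?_⟩
    obtain ⟨v', hv'⟩ := hn (v.take n) (by rw [List.length_take]; omega)
    have h1 : Mp x v (v' ++ v.drop n) := by
      have := hv'.app (v.drop n)
      rwa [List.take_append_drop] at this
    have hl : max a.length b.length ≤ (v' ++ v.drop n).length := by
      rw [List.length_append, List.length_drop]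
      omega
    generalize v' ++ v.drop n = w at h1 hl
    by_cases da : Dj a w
    · by_cases db : Dj b w
      · exact ⟨w, ((tau_ts d).o da.symm db.symm).mul h1⟩
      · obtain ⟨u, rfl⟩ := cmp_len db ((le_max_right _ _).trans hl)
        exact ⟨_, ((tau_ts d).r.app u).mul h1⟩
    · obtain ⟨u, rfl⟩ := cmp_len da ((le_max_left _ _).trans hl)
      exact ⟨_, ((tau_ts d).l.app u).mul h1⟩

/-- a nontrivial element of `V` moves some cone to a disjoint cone, with room -/
lemma moves {x : Perm ℤ} (hx : x ∈ V) (h1 : x ≠ 1) : ∃ a b c : Ad, Mp x a b ∧ Dj a b ∧ Dj c a ∧ Dj c b := by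
  suffices h : ∃ a b : Ad, Mp x a b ∧ Dj a b by
    obtain ⟨a, b, m, d⟩ := h
    exact ⟨a ++ [false], b ++ [false], a ++ [true], m.app _, d.app _ _, (dj_ch a).symm, d.app _ _⟩
  obtain ⟨k, hk⟩ : ∃ k, x k ≠ k := by
    by_contra hcon
    push Not at hcon
    exact h1 (Equiv.ext hcon)
  obtain ⟨n, hn⟩ := deep hx
  obtain ⟨v, hv, l, rfl⟩ := cone_deep n k
  obtain ⟨v', hv'⟩ := hn v hv.ge
  have hne : v ≠ v' := by
    rintro rfl
    exact hk (hv' l)
  by_cases d : Dj v v'
  · exact ⟨v, v', hv', d⟩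
  rcases cmp d with ⟨u, rfl⟩ | ⟨u, rfl⟩
  · cases u with
    | nil => exact absurd (by simp) hne
    | cons i u =>
      refine ⟨v ++ [!i], (v ++ i :: u) ++ [!i], hv'.app _, ?_⟩
      rw [List.append_assoc]
      refine Dj.pre ?_ v
      exact dj_bool (by simp) _ _
  · cases u with
    | nil => exact absurd (by simp) hne
    | cons i u =>
      refine ⟨(v' ++ i :: u) ++ [!i], v' ++ [!i], hv'.app _, ?_⟩
      rw [List.append_assoc]
      refine Dj.pre ?_ v'
      exact dj_bool (by simp) _ _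

/-- the three cycle on three disjoint cones -/
noncomputable def Cy (p q r : Ad) : Perm ℤ := tau p q * tau r q

lemma cy_conj {g : Perm ℤ} {p q r p' q' r' : Ad} (pq : Dj p q) (rq : Dj r q)
    (hp : Mp g p p') (hq : Mp g q q') (hr : Mp g r r') : g * Cy p q r * g⁻¹ = Cy p' q' r' := by
  unfold Cy
  rw [← tau_conj pq hp hq, ← tau_conj rq hr hq]
  group

/-- three disjoint cones inside the cone `s` -/
def T1 (s : Ad) : Ad := s ++ [false, false]
def T2 (s : Ad) : Ad := s ++ [false, true]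
def T3 (s : Ad) : Ad := s ++ [true]

lemma t12 (s : Ad) : Dj (T1 s) (T2 s) := (Dj.pre (dj_bool (by simp) [] []) [false]).pre s
lemma t13 (s : Ad) : Dj (T1 s) (T3 s) := (dj_bool (by simp) _ _).pre s
lemma t32 (s : Ad) : Dj (T3 s) (T2 s) := (dj_bool (by simp) _ _).pre s

/-- moving a triple to a triple in a disjoint cone -/
lemma trans_step (N : Subgroup (Perm ℤ)) (hN : ∀ g ∈ V, ∀ x ∈ N, g * x * g⁻¹ ∈ N) {p q r p' q' r' : Ad}
    (pq : Dj p q) (pr : Dj p r) (rq : Dj r q) (pq' : Dj p' q') (pr' : Dj p' r') (rq' : Dj r' q')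
    (h1 : ∀ x ∈ [p, q, r], ∀ y ∈ [p', q', r'], Dj x y) (h : Cy p q r ∈ N) : Cy p' q' r' ∈ N := by
  simp only [List.mem_cons, List.not_mem_nil, or_false, forall_eq_or_imp, forall_eq] at h1
  obtain ⟨⟨a1, a2, a3⟩, ⟨b1, b2, b3⟩, ⟨c1, c2, c3⟩⟩ := h1
  have hg : tau p p' * tau q q' * tau r r' ∈ V := mul_mem (mul_mem (tau_mem _ _) (tau_mem _ _)) (tau_mem _ _)
  have hp : Mp (tau p p' * tau q q' * tau r r') p p' :=
    ((tau_ts a1).l.mul ((tau_ts b2).o pq a2)).mul ((tau_ts c3).o pr a3)
  have hq : Mp (tau p p' * tau q q' * tau r r') q q' := by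
    refine Mp.mul (Mp.mul ((tau_ts a1).o a2.symm pq'.symm) (tau_ts b2).l) ((tau_ts c3).o rq.symm b3)
  have hr : Mp (tau p p' * tau q q' * tau r r') r r' := by
    refine Mp.mul (Mp.mul ((tau_ts a1).o a3.symm pr'.symm) ((tau_ts b2).o b3.symm rq')) (tau_ts c3).l
  rw [← cy_conj pq rq hp hq hr]
  exact hN _ hg _ h

lemma dj_T {x s : Ad} (h : Dj x s) : Dj x (T1 s) ∧ Dj x (T2 s) ∧ Dj x (T3 s) :=
  ⟨h.appr _, h.appr _, h.appr _⟩

/-- all three cycles with room -/
lemma trans_all (N : Subgroup (Perm ℤ)) (hN : ∀ g ∈ V, ∀ x ∈ N, g * x * g⁻¹ ∈ N) {p q r s p' q' r' s' : Ad}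
    (pq : Dj p q) (pr : Dj p r) (rq : Dj r q) (sp : Dj s p) (sq : Dj s q) (sr : Dj s r)
    (pq' : Dj p' q') (pr' : Dj p' r') (rq' : Dj r' q') (sp' : Dj s' p') (sq' : Dj s' q') (sr' : Dj s' r')
    (h : Cy p q r ∈ N) : Cy p' q' r' ∈ N := by
  obtain ⟨u, u', hu⟩ : ∃ u u' : Ad, Dj (s ++ u) (s' ++ u') := by
    by_cases d : Dj s s'
    · exact ⟨[], [], by simpa using d⟩
    rcases cmp d with ⟨w, rfl⟩ | ⟨w, rfl⟩
    · refine ⟨w ++ [false], [true], ?_⟩
      rw [← List.append_assoc]
      exact dj_ch _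
    · refine ⟨[false], w ++ [true], ?_⟩
      rw [← List.append_assoc]
      exact dj_ch _
  -- first move: into the room of the first triple
  have m1 : Cy (T1 (s ++ u)) (T2 (s ++ u)) (T3 (s ++ u)) ∈ N := by
    refine trans_step N hN pq pr rq (t12 _) (t13 _) (t32 _) ?_ h
    intro x hx y hy
    have hxs : Dj x (s ++ u) := by
      simp only [List.mem_cons, List.not_mem_nil, or_false] at hx
      rcases hx with rfl | rfl | rfl
      · exact sp.symm.appr u
      · exact sq.symm.appr u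
      · exact sr.symm.appr u
    simp only [List.mem_cons, List.not_mem_nil, or_false] at hy
    rcases hy with rfl | rfl | rfl
    · exact (dj_T hxs).1
    · exact (dj_T hxs).2.1
    · exact (dj_T hxs).2.2
  -- second move: into the room of the second triple
  have m2 : Cy (T1 (s' ++ u')) (T2 (s' ++ u')) (T3 (s' ++ u')) ∈ N := by
    refine trans_step N hN (t12 _) (t13 _) (t32 _) (t12 _) (t13 _) (t32 _) ?_ m1
    intro x hx y hy
    have hxs : Dj x (s' ++ u') := by
      simp only [List.mem_cons, List.not_mem_nil, or_false] at hx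
      rcases hx with rfl | rfl | rfl
      · exact (dj_T hu.symm).1.symm
      · exact (dj_T hu.symm).2.1.symm
      · exact (dj_T hu.symm).2.2.symm
    simp only [List.mem_cons, List.not_mem_nil, or_false] at hy
    rcases hy with rfl | rfl | rfl
    · exact (dj_T hxs).1
    · exact (dj_T hxs).2.1
    · exact (dj_T hxs).2.2
  refine trans_step N hN (t12 _) (t13 _) (t32 _) pq' pr' rq' ?_ m2
  intro x hx y hy
  have hys : Dj y (s' ++ u') := by
    simp only [List.mem_cons, List.not_mem_nil, or_false] at hy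
    rcases hy with rfl | rfl | rfl
    · exact sp'.symm.appr u'
    · exact sq'.symm.appr u'
    · exact sr'.symm.appr u'
  simp only [List.mem_cons, List.not_mem_nil, or_false] at hx
  rcases hx with rfl | rfl | rfl
  · exact (dj_T hys).1.symm
  · exact (dj_T hys).2.1.symm
  · exact (dj_T hys).2.2.symm

lemma tau_room (N : Subgroup (Perm ℤ)) (h : ∀ p q r s : Ad, Dj p q → Dj p r → Dj r q → Dj s p → Dj s q →
    Dj s r → Cy p q r ∈ N) {a b c : Ad} (ab : Dj a b) (ca : Dj c a) (cb : Dj c b) : tau a b ∈ N := by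
  have h1 : Cy (a ++ [false]) (b ++ [false]) (a ++ [true]) ∈ N :=
    h _ _ _ c (ab.app _ _) (dj_ch a) (ab.app _ _) (ca.appr _) (cb.appr _) (ca.appr _)
  have h2 : Cy (b ++ [false]) (a ++ [true]) (b ++ [true]) ∈ N :=
    h _ _ _ c (ab.symm.app _ _) (dj_ch b) (ab.symm.app _ _) (cb.appr _) (ca.appr _) (cb.appr _)
  have h3 : tau a b = Cy (a ++ [false]) (b ++ [false]) (a ++ [true]) *
      Cy (b ++ [false]) (a ++ [true]) (b ++ [true]) := by
    unfold Cy
    rw [MM.spl ab, MM.sym (ab.symm.app [false] [true]), MM.sym (ab.symm.app [true] [true]), mul_assoc,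
      ← mul_assoc (tau (a ++ [true]) (b ++ [false])), MM.sq (ab.app _ _), one_mul]
  rw [h3]
  exact mul_mem h1 h2

/-- a nontrivial subgroup normalised by `V` and contained in `V` is `V` -/
lemma normal_top (N : Subgroup (Perm ℤ)) (hNV : N ≤ V) (hN : ∀ g ∈ V, ∀ x ∈ N, g * x * g⁻¹ ∈ N)
    {x : Perm ℤ} (hx : x ∈ N) (hx1 : x ≠ 1) : V ≤ N := by
  obtain ⟨a, b, c, m, ab, ca, cb⟩ := moves (hNV hx) hx1
  -- the commutator with a transposition inside `a`
  have hz : tau (b ++ [false]) (b ++ [true]) * tau (a ++ [false]) (a ++ [true]) ∈ N := by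
    have h1 : x * tau (a ++ [false]) (a ++ [true]) * x⁻¹ = tau (b ++ [false]) (b ++ [true]) :=
      tau_conj (dj_ch a) (m.app _) (m.app _)
    have h2 : x * (tau (a ++ [false]) (a ++ [true]) * x⁻¹ * (tau (a ++ [false]) (a ++ [true]))⁻¹) ∈ N :=
      mul_mem hx (hN _ (tau_mem _ _) _ (inv_mem hx))
    rw [MM.tinv (dj_ch a)] at h2
    rw [← h1]
    convert h2 using 1
    group
  have hcy : Cy (a ++ [false]) (a ++ [true]) c ∈ N := by
    have hg : tau (a ++ [false]) c ∈ V := tau_mem _ _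
    have dac : Dj (a ++ [false]) c := ca.symm.appl _
    have e1 : tau (a ++ [false]) c * tau (b ++ [false]) (b ++ [true]) * (tau (a ++ [false]) c)⁻¹ =
        tau (b ++ [false]) (b ++ [true]) :=
      tau_conj (dj_ch b) ((tau_ts dac).o (ab.symm.app _ _) (cb.symm.appl _))
        ((tau_ts dac).o (ab.symm.app _ _) (cb.symm.appl _))
    have e2 : tau (a ++ [false]) c * tau (a ++ [false]) (a ++ [true]) * (tau (a ++ [false]) c)⁻¹ =
        tau c (a ++ [true]) :=
      tau_conj (dj_ch a) (tau_ts dac).l ((tau_ts dac).o (dj_ch a).symm (ca.symm.appl _))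
    have h1 := mul_mem (inv_mem hz) (hN _ hg _ hz)
    have e3 : (tau (b ++ [false]) (b ++ [true]) * tau (a ++ [false]) (a ++ [true]))⁻¹ *
        (tau (a ++ [false]) c * (tau (b ++ [false]) (b ++ [true]) * tau (a ++ [false]) (a ++ [true])) *
          (tau (a ++ [false]) c)⁻¹) = Cy (a ++ [false]) (a ++ [true]) c := by
      have e4 : tau (a ++ [false]) c * (tau (b ++ [false]) (b ++ [true]) * tau (a ++ [false]) (a ++ [true])) *
          (tau (a ++ [false]) c)⁻¹ = tau (b ++ [false]) (b ++ [true]) * tau c (a ++ [true]) := by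
        calc _ = (tau (a ++ [false]) c * tau (b ++ [false]) (b ++ [true]) * (tau (a ++ [false]) c)⁻¹) *
              (tau (a ++ [false]) c * tau (a ++ [false]) (a ++ [true]) * (tau (a ++ [false]) c)⁻¹) := by group
          _ = _ := by rw [e1, e2]
      rw [e4, mul_inv_rev, MM.tinv (dj_ch a), Cy, mul_assoc, inv_mul_cancel_left]
    rwa [e3] at h1
  have hall : ∀ p q r s : Ad, Dj p q → Dj p r → Dj r q → Dj s p → Dj s q → Dj s r → Cy p q r ∈ N := by
    intro p q r s pq pr rq sp sq sr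
    exact trans_all N hN (s := b) (dj_ch a) (ca.symm.appl _) (ca.appr _) (ab.symm.appr _) (ab.symm.appr _)
      cb.symm pq pr rq sp sq sr hcy
  refine short_gen N fun a b d => ?_
  rw [MM.spl d]
  refine mul_mem (tau_room N hall (c := a.1 ++ [true]) (d.app _ _) (dj_ch a.1).symm (d.app _ _))
    (tau_room N hall (c := a.1 ++ [false]) (d.app _ _) (dj_ch a.1) (d.app _ _))

lemma tau_ne_one {a b : Ad} (d : Dj a b) : tau a b ≠ 1 := by
  intro h
  have h1 := (tau_ts d).l 0
  rw [h] at h1
  exact d 0 0 h1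

instance simple : IsSimpleGroup V := by
  have : Nontrivial V := by
    refine ⟨⟨⟨tau [false] [true], tau_mem _ _⟩, 1, fun h => ?_⟩⟩
    exact tau_ne_one (dj_bool (by simp) [] []) (congrArg Subtype.val h)
  refine ⟨fun N hN => ?_⟩
  by_cases hb : N = ⊥
  · exact Or.inl hb
  right
  obtain ⟨⟨x, hxV⟩, hx, hx1⟩ : ∃ y : V, y ∈ N ∧ y ≠ 1 := by
    obtain ⟨y, hy⟩ := Subgroup.ne_bot_iff_exists_ne_one.1 hb
    exact ⟨y.1, y.2, fun h => hy (Subtype.ext h)⟩
  have h := normal_top (N.map V.subtype) (by rintro _ ⟨y, _, rfl⟩; exact y.2) (by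
      rintro g hg _ ⟨y, hy, rfl⟩
      exact ⟨⟨g, hg⟩ * y * ⟨g, hg⟩⁻¹, hN.conj_mem y hy _, rfl⟩)
    (x := x) ⟨⟨x, hxV⟩, hx, rfl⟩ (fun h => hx1 (Subtype.ext h))
  rw [eq_top_iff]
  rintro g -
  obtain ⟨y, hy, e⟩ := h g.2
  have : y = g := Subtype.ext e
  rwa [← this]

/-! ### Growth -/

lemma ball_mul {G : Type} [Group G] (S : Finset G) (a b : ℕ) :
    (Ball S (a + b)).ncard ≤ (Ball S a).ncard * (Ball S b).ncard := by
  have h1 : Ball S (a + b) ⊆ Ball S a * Ball S b := by
    rintro _ ⟨l, hl, hs, rfl⟩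
    refine ⟨(l.take a).prod, ⟨l.take a, by simp, fun x hx => hs x (List.mem_of_mem_take hx), rfl⟩,
      (l.drop a).prod, ⟨l.drop a, by rw [List.length_drop]; omega,
        fun x hx => hs x (List.mem_of_mem_drop hx), rfl⟩, ?_⟩
    exact List.prod_take_mul_prod_drop l a
  refine (Set.ncard_le_ncard h1 ((ball_fin S a).mul (ball_fin S b))).trans ?_
  exact Set.natCard_mul_le

lemma ball_mono {G : Type} [Group G] (S : Finset G) {a b : ℕ} (h : a ≤ b) :
    (Ball S a).ncard ≤ (Ball S b).ncard :=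
  Set.ncard_le_ncard (fun _ ⟨l, hl, hs, e⟩ => ⟨l, hl.trans h, hs, e⟩) (ball_fin S b)

lemma ball_pow {G : Type} [Group G] (S : Finset G) (a q : ℕ) :
    (Ball S (a * (q + 1))).ncard ≤ (Ball S a).ncard ^ (q + 1) := by
  induction q with
  | zero => simp
  | succ q ih =>
    rw [show a * (q + 1 + 1) = a * (q + 1) + a by ring, pow_succ]
    exact (ball_mul S _ _).trans (Nat.mul_le_mul_right _ ih)

lemma eventually_small {G : Type} [Group G] (S : Finset G) {c c' : ℝ} (hc : 1 < c) (hcc : c < c') (a : ℕ)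
    (ha : ((Ball S a).ncard : ℝ) < c ^ a) : ∀ᶠ k : ℕ in Filter.atTop, ((Ball S k).ncard : ℝ) < c' ^ k := by
  have ha1 : a ≠ 0 := by
    rintro rfl
    have h1 : 1 ≤ (Ball S 0).ncard :=
      (Set.ncard_pos (ball_fin S 0)).mpr ⟨1, [], by simp, by simp, rfl⟩
    have h2 : (1 : ℝ) ≤ ((Ball S 0).ncard : ℝ) := by exact_mod_cast h1
    rw [pow_zero] at ha
    linarith
  have hc0 : 0 < c := by linarith
  have hq : 1 < c' / c := by rw [lt_div_iff₀ hc0]; linarith
  have ht := tendsto_pow_atTop_atTop_of_one_lt hq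
  filter_upwards [ht.eventually_gt_atTop (c ^ a)] with k hk
  have h1 : k ≤ a * (k / a + 1) := by
    have := Nat.lt_mul_div_succ k (Nat.pos_of_ne_zero ha1)
    omega
  have h2 : a * (k / a + 1) ≤ k + a := by
    have := Nat.mul_div_le k a
    rw [mul_add, mul_one]
    omega
  have h3 : ((Ball S k).ncard : ℝ) ≤ ((Ball S a).ncard : ℝ) ^ (k / a + 1) := by
    exact_mod_cast (ball_mono S h1).trans (ball_pow S a (k / a))
  calc ((Ball S k).ncard : ℝ) ≤ ((Ball S a).ncard : ℝ) ^ (k / a + 1) := h3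
    _ ≤ (c ^ a) ^ (k / a + 1) := pow_le_pow_left₀ (by positivity) ha.le _
    _ = c ^ (a * (k / a + 1)) := by rw [← pow_mul]
    _ ≤ c ^ (k + a) := pow_le_pow_right₀ hc.le h2
    _ = c ^ k * c ^ a := pow_add _ _ _
    _ < c ^ k * (c' / c) ^ k := mul_lt_mul_of_pos_left hk (by positivity)
    _ = c' ^ k := by rw [← mul_pow, mul_div_cancel₀ _ hc0.ne']

lemma card_SA : Nat.card SA ≤ 128 := by
  have h : Function.Injective (fun a : SA => (⟨idx a.1, a.2⟩ : Fin 128)) := fun a b h =>
    Subtype.ext (idx_inj (by simpa using h))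
  have := Nat.card_le_card_of_injective _ h
  simpa using this

theorem small' {c : ℝ} (hc : 1 < c) : ∃ S : Finset V, Subgroup.closure (S : Set V) = ⊤ ∧
    S.card ≤ 16390 ∧ (∀ s ∈ S, s * s = 1) ∧
    ∃ k : ℕ, ((Ball S k).ncard : ℝ) < c ^ k := by
  classical
  haveI : Fintype (Option (SA × SA)) := Fintype.ofFinite _
  obtain ⟨m, L, hL, L1, hn⟩ := numer hc (Fintype.card (Option (SA × SA)))
    (Fintype.card (Syl (Option (SA × SA)) × Bool))
  obtain ⟨r, nu, hr, hnu⟩ : ∃ (r : ℕ) (nu : Option (SA × SA) → ℕ), (∀ i, nu i ≤ r) ∧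
      Function.Injective nu := ⟨_, fun i => Fintype.equivFin _ i, fun i => (Fin.is_lt _).le,
        fun i j h => (Fintype.equivFin _).injective (Fin.ext h)⟩
  obtain ⟨D, hD⟩ : ∃ D, D = 2 * 3 ^ m + 3 := ⟨_, rfl⟩
  let z : Option (SA × SA) → Ad := fun i =>
    List.replicate (nu i * D) false ++ List.replicate ((r - nu i) * D) true
  have hz : ∀ i y, y ∈ Zs z m i → y.length = m + 1 + r * D + 1 ∧ nu i * D + 1 ≤ y.count false ∧
      y.count false ≤ nu i * D + 2 := by
    rintro i _ ⟨j, rfl⟩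
    have : nu i * D + (r - nu i) * D = r * D := by rw [← add_mul, Nat.add_sub_cancel' (hr i)]
    cases j <;> simp [z, List.count_replicate] <;> omega
  obtain ⟨A, A1, A2, mA⟩ := ex_lev (m + 1 + r * D + 1) actA actA_actA len_actA
  choose B B1 B2 mB using fun β =>
    ex_lev (m + 1 + r * D + 1) (actK β) (actK_actK β) fun v => len_actK v β
  let x : Option (SA × SA) → Ad := fun i => List.replicate m true ++ false :: false :: z i
  have hx : ∀ i, x i ∈ Zs z m i := fun i => ⟨false, rfl⟩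
  have dx : ∀ i, Dj (x i) (actA (x i)) := fun i => by
    have := (hz i _ (hx i)).1
    rcases h : x i with _ | ⟨j, u⟩
    · rw [h] at this; simp at this
    · exact dj_bool (by simp) _ _
  obtain ⟨al, be, x', h1, h2, h3, h4, h5⟩ : ∃ al be x' : Option (SA × SA) → Ad,
      (∀ i, al i = be i ∨ Dj (al i) (be i)) ∧ (∀ i, actA (x' i) ∈ Zs z m i ∨ x' i ∈ Zs z m i) ∧
      (∀ i, Dj (x i ++ al i) (x' i ++ be i)) ∧
      (∀ a b : SA, Dj a.1 b.1 → al (some (a, b)) = a.1 ∧ be (some (a, b)) = b.1 ∧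
        x' (some (a, b)) = x (some (a, b))) ∧
      al none = [false] ∧ be none = [false] ∧ x' none = actA (x none) := by
    have : ∀ i : Option (SA × SA), ∃ al be x' : Ad, (al = be ∨ Dj al be) ∧
        (actA x' ∈ Zs z m i ∨ x' ∈ Zs z m i) ∧ Dj (x i ++ al) (x' ++ be) ∧
        (∀ a b : SA, Dj a.1 b.1 → i = some (a, b) → al = a.1 ∧ be = b.1 ∧ x' = x i) ∧
        (i = none → al = [false] ∧ be = [false] ∧ x' = actA (x i)) := by
      intro i
      by_cases h : ∃ a b : SA, Dj a.1 b.1 ∧ i = some (a, b)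
      · obtain ⟨a, b, d, rfl⟩ := h
        refine ⟨a.1, b.1, x _, Or.inr d, Or.inr (hx _), d.pre _, fun a' b' _ e => ?_, fun e => ?_⟩
        · simp only [Option.some.injEq, Prod.mk.injEq] at e
          simp [e.1, e.2]
        · simp at e
      · exact ⟨[false], [false], actA (x i), Or.inl rfl, Or.inl (by simpa using hx i),
          (dx i).app _ _, fun a b d e => absurd ⟨a, b, d, e⟩ h, fun _ => ⟨rfl, rfl, rfl⟩⟩
    choose al be x' k1 k2 k3 k4 k5 using this
    exact ⟨al, be, x', k1, k2, k3, fun a b d => k4 _ a b d rfl, k5 _ rfl⟩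
  let e : Option (SA × SA) → Perm ℤ := fun i => tau (x i ++ al i) (x' i ++ be i)
  have key := ball_card z m (k := 3 ^ m) (L := L) (mu := fun i => nu i * D) (e := e) hz mA mB
    (fun i => ⟨x i, x' i, hx i, h2 i, h3 i, rfl⟩) h1 (fun i j hij => by
      rcases lt_or_gt_of_ne (hnu.ne hij) with h | h
      · left
        have := Nat.mul_le_mul_right D (Nat.succ_le_of_lt h)
        rw [Nat.succ_mul] at this
        omega
      · right
        have := Nat.mul_le_mul_right D (Nat.succ_le_of_lt h)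
        rw [Nat.succ_mul] at this
        omega) hL (Nat.mul_pos Fintype.card_pos (by omega))
  let S : Finset V := insert ⟨A, A1⟩ (Finset.univ.image (fun β => (⟨B β, B1 β⟩ : V)) ∪
    Finset.univ.image fun i => (⟨e i, tau_mem _ _⟩ : V))
  have hS : ∀ g : V, g ∈ S ↔ g.1 = A ∨ (∃ β, g.1 = B β) ∨ ∃ i, g.1 = e i := fun g => by
    simp only [S, Finset.mem_insert, Finset.mem_union, Finset.mem_image, Finset.mem_univ, true_and,
      Subtype.ext_iff, @eq_comm _ g.1]
  refine ⟨S, ?_, ?_, ?_, 3 ^ m, ?_⟩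
  · have mem : ∀ g : V, g ∈ S → g.1 ∈ (Subgroup.closure (S : Set V)).map V.subtype := fun g hg =>
      ⟨g, Subgroup.subset_closure hg, rfl⟩
    have me : ∀ i, e i ∈ (Subgroup.closure (S : Set V)).map V.subtype := fun i =>
      mem ⟨e i, tau_mem _ _⟩ ((hS _).2 (Or.inr (Or.inr ⟨i, rfl⟩)))
    have := gen_all ((Subgroup.closure (S : Set V)).map V.subtype) (m + 1 + r * D) A B
      (mem ⟨A, A1⟩ ((hS _).2 (Or.inl rfl)))
      (fun β => mem ⟨B β, B1 β⟩ ((hS _).2 (Or.inr (Or.inl ⟨β, rfl⟩)))) mA mB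
      (fun a b d => ⟨x (some (a, b)), (hz _ _ (hx _)).1, by
        have := me (some (a, b))
        simp only [e] at this
        rwa [(h4 a b d).1, (h4 a b d).2.1, (h4 a b d).2.2] at this⟩)
      ⟨x none, (hz _ _ (hx _)).1, by
        have := me none
        simp only [e] at this
        rwa [h5.1, h5.2.1, h5.2.2] at this⟩
    rw [eq_top_iff]
    intro g _
    obtain ⟨g', hg, e'⟩ := this g.2
    rwa [← Subtype.ext (a1 := g') (a2 := g) e']
  · have c1 : (Finset.univ.image (fun β => (⟨B β, B1 β⟩ : V))).card ≤ 4 :=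
      Finset.card_image_le.trans (by simp)
    have c2 : (Finset.univ.image fun i => (⟨e i, tau_mem _ _⟩ : V)).card ≤ 16385 := by
      refine Finset.card_image_le.trans ?_
      rw [Finset.card_univ, ← Nat.card_eq_fintype_card, Finite.card_option, Nat.card_prod]
      have := Nat.mul_le_mul card_SA card_SA
      omega
    have c3 := Finset.card_union_le (Finset.univ.image (fun β => (⟨B β, B1 β⟩ : V)))
      (Finset.univ.image fun i => (⟨e i, tau_mem _ _⟩ : V))
    refine (Finset.card_insert_le _ _).trans ?_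
    omega
  · intro g hg
    have inv2 : ∀ σ : Perm ℤ, σ⁻¹ = σ → σ * σ = 1 := fun σ h => by
      nth_rewrite 1 [← h]
      exact inv_mul_cancel σ
    apply Subtype.ext
    show g.1 * g.1 = 1
    rcases (hS g).1 hg with h | ⟨β, h⟩ | ⟨i, h⟩
    · rw [h]; exact inv2 _ A2
    · rw [h]; exact inv2 _ (B2 β)
    · rw [h]; exact inv2 _ (MM.tinv (h3 i))
  · refine lt_of_le_of_lt ?_ hn
    rw [← Set.ncard_image_of_injective _ Subtype.val_injective, Nat.cast_le]
    refine (Set.encard_le_coe_iff_finite_ncard_le.1 ((Set.encard_le_encard ?_).trans key)).2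
    rintro _ ⟨_, ⟨l, hl, hs, rfl⟩, rfl⟩
    refine ⟨l.map V.subtype, by simpa using hl, fun y hy => ?_, (map_list_prod V.subtype l).symm⟩
    obtain ⟨g, hg, rfl⟩ := List.mem_map.1 hy
    rcases hs g hg with h | h
    · exact (hS g).1 h
    · rcases (hS _).1 h with h | ⟨β, h⟩ | ⟨i, h⟩
      · exact Or.inl (by rw [← A2, ← h]; simp)
      · exact Or.inr (Or.inl ⟨β, by rw [← B2, ← h]; simp⟩)
      · refine Or.inr (Or.inr ⟨i, ?_⟩)
        have : (e i)⁻¹ = e i := MM.tinv (h3 i)
        rw [← this, ← h]; simp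


/-- **A finitely presented infinite simple group of non-uniform exponential growth.** It has a finite generating
set whose balls have at least `2 ^ k` elements, and for every `c > 1` it is generated by at most `16390` elements
of order at most 2 such that the balls of radius `k` have fewer than `c ^ k` elements for all large `k`. -/
theorem result : ∃ (G : Type) (_ : Group G), IsSimpleGroup G ∧ Infinite G ∧
    (∃ (n : ℕ) (rels : Finset (FreeGroup (Fin n))),
      Nonempty (G ≃* PresentedGroup (rels : Set (FreeGroup (Fin n))))) ∧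
    (∃ S : Finset G, Subgroup.closure (S : Set G) = ⊤ ∧ ∀ k : ℕ, 2 ^ k ≤ (WordBall S k).ncard) ∧
    ∀ c : ℝ, 1 < c → ∃ S : Finset G, Subgroup.closure (S : Set G) = ⊤ ∧ S.card ≤ 16390 ∧
      (∀ s ∈ S, s * s = 1) ∧ ∀ᶠ k : ℕ in Filter.atTop, ((WordBall S k).ncard : ℝ) < c ^ k := by
  refine ⟨V, inferInstance, inferInstance, ?_, pres, big, fun c hc => ?_⟩
  · by_contra hfin
    rw [not_infinite_iff_finite] at hfin
    obtain ⟨S, _, h⟩ := big
    have h1 : (Ball S (Nat.card V)).ncard ≤ Nat.card V := Set.ncard_le_card _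
    have h2 := h (Nat.card V)
    have h3 : Nat.card V < 2 ^ Nat.card V := Nat.lt_two_pow_self
    omega
  · obtain ⟨S, h1, h2, h3, k, h4⟩ := small' (c := (1 + c) / 2) (by linarith)
    exact ⟨S, h1, h2, h3, eventually_small S (by linarith) (by linarith) k h4⟩

end Pool.Agent.Results.MP_89edc2_al.SimpleGroup
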